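import Mathlib

set_option autoImplicit false

/-!
# The refactorisation identity for the three-dimensional pentagram map

`Step A B a b c d e` says that (the lifts) `B` form the image of (the lifts) `A` under the map
`F`, with the coefficients of the unique linear relation among five consecutive vertices.
-/

namespace Pool.Agent.T6.H75.DV

open Module

variable {K : Type*} [Field K]

/-- the data of one application of the map, on lifts to `K^4` -/
structure Step (A B : ℤ → Fin 4 → K) (a b c d e : ℤ → K) : Prop where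
  ind3 : ∀ (i : ℤ) (x y z : K), x • A (i - 2) + y • A i + z • A (i + 2) = 0 → x = 0 ∧ y = 0 ∧ z = 0
  ind2 : ∀ (i : ℤ) (x y : K), x • A (i - 1) + y • A (i + 1) = 0 → x = 0 ∧ y = 0
  hB : ∀ i, b i • A (i - 1) + d i • A (i + 1) = B i
  hB' : ∀ i, a i • A (i - 2) + c i • A i + e i • A (i + 2) = - B i
  uniq : ∀ (i : ℤ) (x0 x1 x2 x3 x4 : K), x0 • A (i - 2) + x1 • A (i - 1) + x2 • A i + x3 • A (i + 1)
    + x4 • A (i + 2) = 0 →
    ∃ t : K, x0 = t * a i ∧ x1 = t * b i ∧ x2 = t * c i ∧ x3 = t * d i ∧ x4 = t * e i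
  spn : ∀ i (φ : (Fin 4 → K) →ₗ[K] K), φ (A (i - 2)) = 0 → φ (A (i - 1)) = 0 → φ (A i) = 0 →
    φ (A (i + 1)) = 0 → φ (A (i + 2)) = 0 → φ = 0
  ne : ∀ i, B i ≠ 0

/-- the odd part of the relation operator -/
def Dm (b d : ℤ → K) : (ℤ → K) →ₗ[K] (ℤ → K) where
  toFun f := fun i => b i * f (i - 1) + d i * f (i + 1)
  map_add' f g := by ext i; simp; ring
  map_smul' t f := by ext i; simp; ring

/-- the even part of the relation operator -/
def Dp (a c e : ℤ → K) : (ℤ → K) →ₗ[K] (ℤ → K) where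
  toFun f := fun i => a i * f (i - 2) + c i * f i + e i * f (i + 2)
  map_add' f g := by ext i; simp; ring
  map_smul' t f := by ext i; simp; ring

lemma Dm_apply (b d : ℤ → K) (f : ℤ → K) (i : ℤ) :
    Dm b d f i = b i * f (i - 1) + d i * f (i + 1) := rfl

lemma Dp_apply (a c e : ℤ → K) (f : ℤ → K) (i : ℤ) :
    Dp a c e f i = a i * f (i - 2) + c i * f i + e i * f (i + 2) := rfl

/-- four vectors which no nonzero functional annihilates are independent -/
lemma indep4 (w0 w1 w2 w3 : Fin 4 → K)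
    (h : ∀ φ : (Fin 4 → K) →ₗ[K] K, φ w0 = 0 → φ w1 = 0 → φ w2 = 0 → φ w3 = 0 → φ = 0)
    (x0 x1 x2 x3 : K) (hx : x0 • w0 + x1 • w1 + x2 • w2 + x3 • w3 = 0) :
    x0 = 0 ∧ x1 = 0 ∧ x2 = 0 ∧ x3 = 0 := by
  have htop : ⊤ ≤ Submodule.span K (Set.range ![w0, w1, w2, w3]) := by
    by_contra hne
    have hlt : Submodule.span K (Set.range ![w0, w1, w2, w3]) < ⊤ := by
      rw [lt_top_iff_ne_top]
      intro h'
      exact hne h'.ge
    obtain ⟨φ, hφ, hker⟩ := Submodule.exists_le_ker_of_lt_top _ hlt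
    refine hφ (h φ ?_ ?_ ?_ ?_)
    · exact hker (Submodule.subset_span ⟨0, rfl⟩)
    · exact hker (Submodule.subset_span ⟨1, rfl⟩)
    · exact hker (Submodule.subset_span ⟨2, rfl⟩)
    · exact hker (Submodule.subset_span ⟨3, rfl⟩)
  have hli : LinearIndependent K ![w0, w1, w2, w3] :=
    linearIndependent_of_top_le_span_of_card_eq_finrank htop (by simp)
  rw [Fintype.linearIndependent_iff] at hli
  have := hli ![x0, x1, x2, x3] (by
    rw [Fin.sum_univ_four]
    simpa using hx)
  exact ⟨this 0, this 1, this 2, this 3⟩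

/-- four vertices of the same parity are independent if two steps are defined -/
lemma four {A B C : ℤ → Fin 4 → K} {a b c d e a' b' c' d' e' : ℤ → K}
    (h : Step A B a b c d e) (h' : Step B C a' b' c' d' e') (i : ℤ) (x0 x1 x2 x3 : K)
    (hx : x0 • A (i - 3) + x1 • A (i - 1) + x2 • A (i + 1) + x3 • A (i + 3) = 0) :
    x0 = 0 ∧ x1 = 0 ∧ x2 = 0 ∧ x3 = 0 := by
  refine indep4 _ _ _ _ ?_ x0 x1 x2 x3 hx
  intro φ h0 h1 h2 h3
  apply h'.spn i φ
  · rw [← h.hB (i - 2), show i - 2 - 1 = i - 3 by ring, show i - 2 + 1 = i - 1 by ring]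
    simp [h0, h1]
  · rw [← neg_eq_zero, ← map_neg, ← h.hB' (i - 1), show i - 1 - 2 = i - 3 by ring,
      show i - 1 + 2 = i + 1 by ring]
    simp [h0, h1, h2]
  · rw [← h.hB i]
    simp [h1, h2]
  · rw [← neg_eq_zero, ← map_neg, ← h.hB' (i + 1), show i + 1 - 2 = i - 1 by ring,
      show i + 1 + 2 = i + 3 by ring]
    simp [h1, h2, h3]
  · rw [← h.hB (i + 2), show i + 2 - 1 = i + 1 by ring, show i + 2 + 1 = i + 3 by ring]
    simp [h2, h3]

/-- the refactorisation identity -/
lemma comm {A B C : ℤ → Fin 4 → K} {a b c d e a' b' c' d' e' : ℤ → K}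
    (h : Step A B a b c d e) (h' : Step B C a' b' c' d' e') (f : ℤ → K) :
    Dp a' c' e' (Dm b d f) = Dm b' d' (Dp a c e f) := by
  ext i
  have key := four h h' i
    (a' i * b (i - 2) - b' i * a (i - 1))
    (a' i * d (i - 2) + c' i * b i - b' i * c (i - 1) - d' i * a (i + 1))
    (c' i * d i + e' i * b (i + 2) - b' i * e (i - 1) - d' i * c (i + 1))
    (e' i * d (i + 2) - d' i * e (i + 1)) (by
      have e1 := h.hB (i - 2)
      have e2 := h.hB i
      have e3 := h.hB (i + 2)
      have e4 := h.hB' (i - 1)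
      have e5 := h.hB' (i + 1)
      have e6 := h'.hB i
      have e7 := h'.hB' i
      rw [show i - 2 - 1 = i - 3 by ring, show i - 2 + 1 = i - 1 by ring] at e1
      rw [show i + 2 - 1 = i + 1 by ring, show i + 2 + 1 = i + 3 by ring] at e3
      rw [show i - 1 - 2 = i - 3 by ring, show i - 1 + 2 = i + 1 by ring] at e4
      rw [show i + 1 - 2 = i - 1 by ring, show i + 1 + 2 = i + 3 by ring] at e5
      rw [← e1, ← e2, ← e3] at e7
      have e4' : B (i - 1) = - (a (i - 1) • A (i - 3) + c (i - 1) • A (i - 1)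
        + e (i - 1) • A (i + 1)) := by rw [e4, neg_neg]
      have e5' : B (i + 1) = - (a (i + 1) • A (i - 1) + c (i + 1) • A (i + 1)
        + e (i + 1) • A (i + 3)) := by rw [e5, neg_neg]
      rw [e4', e5'] at e6
      rw [← e6] at e7
      rw [← sub_eq_zero] at e7
      rw [← e7]
      ext j
      simp only [Pi.add_apply, Pi.sub_apply, Pi.smul_apply, Pi.neg_apply, smul_eq_mul]
      ring)
  obtain ⟨k0, k1, k2, k3⟩ := key
  simp only [Dp_apply, Dm_apply]
  rw [show i - 2 - 1 = i - 3 by ring, show i - 2 + 1 = i - 1 by ring,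
    show i + 2 - 1 = i + 1 by ring, show i + 2 + 1 = i + 3 by ring,
    show i - 1 - 2 = i - 3 by ring, show i - 1 + 2 = i + 1 by ring,
    show i + 1 - 2 = i - 1 by ring, show i + 1 + 2 = i + 3 by ring]
  linear_combination f (i - 3) * k0 + f (i - 1) * k1 + f (i + 1) * k2 + f (i + 3) * k3

/-- a sequence satisfying the relation at `j` is locally a linear functional of the vertices -/
lemma functional {A B : ℤ → Fin 4 → K} {a b c d e : ℤ → K} (h : Step A B a b c d e)
    (g : ℤ → K) (j : ℤ) (hg : a j * g (j - 2) + b j * g (j - 1) + c j * g j + d j * g (j + 1)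
      + e j * g (j + 2) = 0) :
    ∃ φ : (Fin 4 → K) →ₗ[K] K, φ (A (j - 2)) = g (j - 2) ∧ φ (A (j - 1)) = g (j - 1) ∧
      φ (A j) = g j ∧ φ (A (j + 1)) = g (j + 1) ∧ φ (A (j + 2)) = g (j + 2) := by
  classical
  let T : (Fin 5 → K) →ₗ[K] (Fin 4 → K) := Fintype.linearCombination K
    ![A (j - 2), A (j - 1), A j, A (j + 1), A (j + 2)]
  let G : Module.Dual K (Fin 5 → K) := Fintype.linearCombination K
    ![g (j - 2), g (j - 1), g j, g (j + 1), g (j + 2)]
  have hG : G ∈ LinearMap.range T.dualMap := by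
    rw [LinearMap.range_dualMap_eq_dualAnnihilator_ker, Submodule.mem_dualAnnihilator]
    intro x hx
    rw [LinearMap.mem_ker] at hx
    have hx' : x 0 • A (j - 2) + x 1 • A (j - 1) + x 2 • A j + x 3 • A (j + 1)
        + x 4 • A (j + 2) = 0 := by
      rw [← hx]
      simp only [T, Fintype.linearCombination_apply, Fin.sum_univ_five]
      simp
    obtain ⟨t, h0, h1, h2, h3, h4⟩ := h.uniq j _ _ _ _ _ hx'
    simp only [G, Fintype.linearCombination_apply, Fin.sum_univ_five]
    simp [h0, h1, h2, h3, h4]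
    linear_combination t * hg
  obtain ⟨φ, hφ⟩ := hG
  have hv : ∀ x, φ (T x) = G x := fun x => by
    rw [← hφ]; rfl
  refine ⟨φ, ?_, ?_, ?_, ?_, ?_⟩
  · have := hv (Pi.single 0 1)
    simpa [T, G] using this
  · have := hv (Pi.single 1 1)
    simpa [T, G] using this
  · have := hv (Pi.single 2 1)
    simpa [T, G] using this
  · have := hv (Pi.single 3 1)
    simpa [T, G] using this
  · have := hv (Pi.single 4 1)
    simpa [T, G] using this

lemma par_of_e {A B : ℤ → Fin 4 → K} {a b c d e : ℤ → K} (h : Step A B a b c d e) (j : ℤ)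
    (he : e (j + 1) = 0) : ∃ s : K, s ≠ 0 ∧ B (j + 1) = s • B j := by
  have h1 := h.hB (j + 1)
  have h2 := h.hB' (j + 1)
  rw [show j + 1 - 1 = j by ring, show j + 1 + 1 = j + 2 by ring] at h1
  rw [show j + 1 - 2 = j - 1 by ring, he, zero_smul, add_zero] at h2
  obtain ⟨t, t0, t1, t2, t3, t4⟩ := h.uniq j 0 (a (j + 1)) (b (j + 1)) (c (j + 1)) (d (j + 1)) (by
    have : a (j + 1) • A (j - 1) + c (j + 1) • A (j + 1) + (b (j + 1) • A j
      + d (j + 1) • A (j + 2)) = 0 := by rw [h1, h2, neg_add_cancel]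
    rw [← this]
    ext k
    simp only [Pi.add_apply, Pi.smul_apply, smul_eq_mul]
    ring)
  have hB : B (j + 1) = (-t) • B j := by
    rw [← h.hB j, eq_neg_iff_add_eq_zero.mpr (neg_eq_iff_add_eq_zero.mp h2.symm), t1, t3]
    ext k
    simp only [Pi.add_apply, Pi.smul_apply, smul_eq_mul, Pi.neg_apply]
    ring
  refine ⟨-t, ?_, hB⟩
  intro h0
  rw [h0, zero_smul] at hB
  exact h.ne _ hB

lemma par_of_a {A B : ℤ → Fin 4 → K} {a b c d e : ℤ → K} (h : Step A B a b c d e) (j : ℤ)
    (ha : a j = 0) : ∃ s : K, s ≠ 0 ∧ B (j + 1) = s • B j := by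
  have h1 := h.hB j
  have h2 := h.hB' j
  rw [ha, zero_smul, zero_add] at h2
  obtain ⟨t, t0, t1, t2, t3, t4⟩ := h.uniq (j + 1) (b j) (c j) (d j) (e j) 0 (by
    have : c j • A j + e j • A (j + 2) + (b j • A (j - 1) + d j • A (j + 1)) = 0 := by
      rw [h1, h2, neg_add_cancel]
    rw [show j + 1 - 2 = j - 1 by ring, show j + 1 - 1 = j by ring,
      show j + 1 + 1 = j + 2 by ring, ← this]
    ext k
    simp only [Pi.add_apply, Pi.smul_apply, smul_eq_mul]
    ring)
  have h3 := h.hB (j + 1)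
  rw [show j + 1 - 1 = j by ring, show j + 1 + 1 = j + 2 by ring] at h3
  have hB : B j = (-t) • B (j + 1) := by
    rw [← h3]
    have : B j = -(c j • A j + e j • A (j + 2)) := by rw [h2, neg_neg]
    rw [this, t1, t3]
    ext k
    simp only [Pi.add_apply, Pi.smul_apply, smul_eq_mul, Pi.neg_apply]
    ring
  have ht : -t ≠ 0 := by
    intro h0
    rw [h0, zero_smul] at hB
    exact h.ne _ hB
  refine ⟨(-t)⁻¹, inv_ne_zero ht, ?_⟩
  rw [hB, smul_smul, inv_mul_cancel₀ ht, one_smul]

/-- the two halves of the relation operator have no common kernel if two steps are defined -/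
lemma no_common_kernel {A B C : ℤ → Fin 4 → K} {a b c d e a' b' c' d' e' : ℤ → K}
    (h : Step A B a b c d e) (h' : Step B C a' b' c' d' e') (g : ℤ → K)
    (hm : Dm b d g = 0) (hp : Dp a c e g = 0) : g = 0 := by
  have hm' : ∀ i, b i * g (i - 1) + d i * g (i + 1) = 0 := fun i => by
    rw [← Dm_apply, hm]; rfl
  have hp' : ∀ i, a i * g (i - 2) + c i * g i + e i * g (i + 2) = 0 := fun i => by
    rw [← Dp_apply, hp]; rfl
  -- the local alternative
  have alt : ∀ j, (g (j - 1) ≠ 0 ∨ g j ≠ 0 ∨ g (j + 1) ≠ 0) →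
      (∃ s : K, s ≠ 0 ∧ B (j + 1) = s • B j) ∨ (∃ s : K, s ≠ 0 ∧ B j = s • B (j - 1)) := by
    intro j hne
    by_contra hcon
    push Not at hcon
    have he : e (j + 1) ≠ 0 := by
      intro h0
      obtain ⟨s, hs, hs'⟩ := par_of_e h j h0
      exact hcon.1 s hs hs'
    have ha : a (j - 1) ≠ 0 := by
      intro h0
      obtain ⟨s, hs, hs'⟩ := par_of_a h (j - 1) h0
      rw [show j - 1 + 1 = j by ring] at hs'
      exact hcon.2 s hs hs'
    obtain ⟨φ, f0, f1, f2, f3, f4⟩ := functional h g j (by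
      linear_combination hm' j + hp' j)
    -- values at j + 3 and j - 3
    have f5 : φ (A (j + 3)) = g (j + 3) := by
      have r1 := h.hB (j + 1)
      have r2 := h.hB' (j + 1)
      have q1 := hm' (j + 1)
      have q2 := hp' (j + 1)
      rw [show j + 1 - 1 = j by ring, show j + 1 + 1 = j + 2 by ring] at r1 q1
      rw [show j + 1 - 2 = j - 1 by ring, show j + 1 + 2 = j + 3 by ring] at r2 q2
      have r3 := congrArg φ r1
      have r4 := congrArg φ r2
      simp only [map_add, map_smul, map_neg, smul_eq_mul, f1, f2, f3, f4] at r3 r4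
      have : e (j + 1) * (φ (A (j + 3)) - g (j + 3)) = 0 := by
        linear_combination r3 + r4 - q1 - q2
      rcases mul_eq_zero.mp this with h0 | h0
      · exact absurd h0 he
      · exact sub_eq_zero.mp h0
    have f6 : φ (A (j - 3)) = g (j - 3) := by
      have r1 := h.hB (j - 1)
      have r2 := h.hB' (j - 1)
      have q1 := hm' (j - 1)
      have q2 := hp' (j - 1)
      rw [show j - 1 - 1 = j - 2 by ring, show j - 1 + 1 = j by ring] at r1 q1
      rw [show j - 1 - 2 = j - 3 by ring, show j - 1 + 2 = j + 1 by ring] at r2 q2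
      have r3 := congrArg φ r1
      have r4 := congrArg φ r2
      simp only [map_add, map_smul, map_neg, smul_eq_mul, f0, f1, f2, f3] at r3 r4
      have : a (j - 1) * (φ (A (j - 3)) - g (j - 3)) = 0 := by
        linear_combination r3 + r4 - q1 - q2
      rcases mul_eq_zero.mp this with h0 | h0
      · exact absurd h0 ha
      · exact sub_eq_zero.mp h0
    have hφ : φ = 0 := by
      apply h'.spn j φ
      · rw [← h.hB (j - 2), show j - 2 - 1 = j - 3 by ring, show j - 2 + 1 = j - 1 by ring]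
        have := hm' (j - 2)
        rw [show j - 2 - 1 = j - 3 by ring, show j - 2 + 1 = j - 1 by ring] at this
        simp only [map_add, map_smul, smul_eq_mul, f6, f1]
        exact this
      · rw [← h.hB (j - 1), show j - 1 - 1 = j - 2 by ring, show j - 1 + 1 = j by ring]
        have := hm' (j - 1)
        rw [show j - 1 - 1 = j - 2 by ring, show j - 1 + 1 = j by ring] at this
        simp only [map_add, map_smul, smul_eq_mul, f0, f2]
        exact this
      · rw [← h.hB j]
        simp only [map_add, map_smul, smul_eq_mul, f1, f3]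
        exact hm' j
      · rw [← h.hB (j + 1), show j + 1 - 1 = j by ring, show j + 1 + 1 = j + 2 by ring]
        have := hm' (j + 1)
        rw [show j + 1 - 1 = j by ring, show j + 1 + 1 = j + 2 by ring] at this
        simp only [map_add, map_smul, smul_eq_mul, f2, f4]
        exact this
      · rw [← h.hB (j + 2), show j + 2 - 1 = j + 1 by ring, show j + 2 + 1 = j + 3 by ring]
        have := hm' (j + 2)
        rw [show j + 2 - 1 = j + 1 by ring, show j + 2 + 1 = j + 3 by ring] at this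
        simp only [map_add, map_smul, smul_eq_mul, f3, f5]
        exact this
    rw [hφ] at f1 f2 f3
    rcases hne with h0 | h0 | h0
    · exact h0 f1.symm
    · exact h0 f2.symm
    · exact h0 f3.symm
  -- two adjacent coincidences are impossible
  have adj : ∀ j, (∃ s : K, s ≠ 0 ∧ B (j + 1) = s • B j) →
      (∃ s : K, s ≠ 0 ∧ B j = s • B (j - 1)) → False := by
    rintro j ⟨s, hs, h1⟩ ⟨s', hs', h2⟩
    have := h'.ind2 j (s * s') (-1) (by
      rw [h1, h2]
      ext k
      simp only [Pi.add_apply, Pi.smul_apply, smul_eq_mul, Pi.zero_apply]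
      ring)
    exact one_ne_zero (neg_eq_zero.mp this.2)
  have dist2 : ∀ j, (∃ s : K, s ≠ 0 ∧ B (j + 1) = s • B j) →
      (∃ s : K, s ≠ 0 ∧ B (j - 1) = s • B (j - 2)) → False := by
    rintro j ⟨s, hs, h1⟩ ⟨s', hs', h2⟩
    obtain ⟨t, t0, t1, t2, t3, t4⟩ := h'.uniq j 0 0 (-s) 1 0 (by
      rw [h1]
      ext k
      simp only [Pi.add_apply, Pi.smul_apply, smul_eq_mul, Pi.zero_apply]
      ring)
    obtain ⟨u, u0, u1, u2, u3, u4⟩ := h'.uniq j (-s') 1 0 0 0 (by
      rw [h2]
      ext k
      simp only [Pi.add_apply, Pi.smul_apply, smul_eq_mul, Pi.zero_apply]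
      ring)
    have hb : b' j ≠ 0 := by
      intro h0; rw [h0, mul_zero] at u1; exact one_ne_zero u1
    have ht : t ≠ 0 := by
      intro h0; rw [h0, zero_mul] at t3; exact one_ne_zero t3
    exact mul_ne_zero ht hb t1.symm
  have dist2' : ∀ j, (∃ s : K, s ≠ 0 ∧ B j = s • B (j - 1)) →
      (∃ s : K, s ≠ 0 ∧ B (j + 2) = s • B (j + 1)) → False := by
    rintro j ⟨s, hs, h1⟩ ⟨s', hs', h2⟩
    obtain ⟨t, t0, t1, t2, t3, t4⟩ := h'.uniq j 0 (-s) 1 0 0 (by
      rw [h1]
      ext k
      simp only [Pi.add_apply, Pi.smul_apply, smul_eq_mul, Pi.zero_apply]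
      ring)
    obtain ⟨u, u0, u1, u2, u3, u4⟩ := h'.uniq j 0 0 0 (-s') 1 (by
      rw [h2]
      ext k
      simp only [Pi.add_apply, Pi.smul_apply, smul_eq_mul, Pi.zero_apply]
      ring)
    have hd : d' j ≠ 0 := by
      intro h0; rw [h0, mul_zero] at u3; exact hs' (neg_eq_zero.mp u3)
    have ht : t ≠ 0 := by
      intro h0; rw [h0, zero_mul] at t2; exact one_ne_zero t2
    exact mul_ne_zero ht hd t3.symm
  by_contra hg
  obtain ⟨i, hi⟩ := Function.ne_iff.mp hg
  simp only [Pi.zero_apply] at hi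
  rcases alt i (Or.inr (Or.inl hi)) with h1 | h1
  · -- B (i+1) ∥ B i
    rcases alt (i - 1) (Or.inr (Or.inr (by rwa [show i - 1 + 1 = i by ring]))) with h2 | h2
    · rw [show i - 1 + 1 = i by ring] at h2
      exact adj i h1 h2
    · rw [show i - 1 - 1 = i - 2 by ring] at h2
      exact dist2 i h1 h2
  · rcases alt (i + 1) (Or.inl (by rwa [show i + 1 - 1 = i by ring])) with h2 | h2
    · rw [show i + 1 + 1 = i + 2 by ring] at h2
      exact dist2' i h1 h2
    · rw [show i + 1 - 1 = i by ring] at h2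
      exact adj i h2 h1

end Pool.Agent.T6.H75.DV
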