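import Pool.Agent.T6.H75.DV.Core

set_option autoImplicit false

/-!
# The kernel dimension count
-/

namespace Pool.Agent.T6.H75.DV

open Module

variable {K : Type*} [Field K]

/-- the `2n`-periodic sequences supported on the parity class of `σ` -/
def Vc (K : Type*) [Field K] (n : ℕ) (σ : ℤ) : Submodule K (ℤ → K) where
  carrier := {f | (∀ i, f (i + 2 * n) = f i) ∧ ∀ i, ¬ ((2 : ℤ) ∣ i - σ) → f i = 0}
  add_mem' := by
    rintro f g ⟨hf, hf'⟩ ⟨hg, hg'⟩
    exact ⟨fun i => by simp [hf, hg], fun i hi => by simp [hf' i hi, hg' i hi]⟩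
  zero_mem' := ⟨fun i => rfl, fun i _ => rfl⟩
  smul_mem' := by
    rintro t f ⟨hf, hf'⟩
    exact ⟨fun i => by simp [hf], fun i hi => by simp [hf' i hi]⟩

lemma mem_Vc {n : ℕ} {σ : ℤ} {f : ℤ → K} :
    f ∈ Vc K n σ ↔ (∀ i, f (i + 2 * n) = f i) ∧ ∀ i, ¬ ((2 : ℤ) ∣ i - σ) → f i = 0 := Iff.rfl

omit [Field K] in
lemma per_mul {n : ℕ} {f : ℤ → K} (hf : ∀ i, f (i + 2 * n) = f i) (i q : ℤ) :
    f (i + q * (2 * n)) = f i :=
  (Function.Periodic.int_mul (f := f) (c := 2 * (n : ℤ)) hf q) i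

/-- the sequences of one class are the functions on `ZMod n` -/
noncomputable def eqv (n : ℕ) [NeZero n] (σ : ℤ) : Vc K n σ ≃ₗ[K] (ZMod n → K) where
  toFun f := fun x => f.1 (σ + 2 * (x.val : ℤ))
  map_add' f g := rfl
  map_smul' t f := rfl
  invFun g := ⟨fun i => if (2 : ℤ) ∣ i - σ then g (((i - σ) / 2 : ℤ) : ZMod n) else 0, by
    rw [mem_Vc]
    refine ⟨fun i => ?_, fun i hi => if_neg hi⟩
    have h1 : (2 : ℤ) ∣ i + 2 * n - σ ↔ (2 : ℤ) ∣ i - σ := by
      rw [show i + 2 * (n : ℤ) - σ = i - σ + 2 * n by ring]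
      exact Int.dvd_add_left (dvd_mul_right _ _)
    by_cases h : (2 : ℤ) ∣ i - σ
    · rw [if_pos h, if_pos (h1.mpr h)]
      congr 1
      rw [show i + 2 * (n : ℤ) - σ = i - σ + n * 2 by ring, Int.add_mul_ediv_right _ _ (by norm_num)]
      push_cast
      simp
    · rw [if_neg h, if_neg (fun h' => h (h1.mp h'))]⟩
  left_inv f := by
    obtain ⟨f, hf, hf'⟩ := f
    ext i
    simp only
    by_cases h : (2 : ℤ) ∣ i - σ
    · rw [if_pos h]
      obtain ⟨m, hm⟩ := h
      rw [hm, Int.mul_ediv_cancel_left _ (by norm_num), ZMod.val_intCast]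
      have h2 := per_mul hf (σ + 2 * (m % n)) (m / n)
      rw [← h2]
      congr 1
      have := Int.emod_add_mul_ediv m n
      linear_combination 2 * this - hm
    · rw [if_neg h, hf' i h]
  right_inv g := by
    ext x
    simp only
    rw [if_pos (by simp), show σ + 2 * (x.val : ℤ) - σ = 2 * (x.val : ℤ) by ring,
      Int.mul_ediv_cancel_left _ (by norm_num)]
    simp

lemma finrank_Vc (n : ℕ) [NeZero n] (σ : ℤ) : finrank K (Vc K n σ) = n := by
  rw [(eqv (K := K) n σ).finrank_eq]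
  simp

instance (n : ℕ) [NeZero n] (σ : ℤ) : FiniteDimensional K (Vc K n σ) :=
  (eqv (K := K) n σ).symm.finiteDimensional

/-- the special property of the initial polygon -/
def Init (n : ℕ) (a b c d e : ℤ → K) (σ : ℤ) : Prop :=
  ∃ t α β γ : ℤ → K, (∀ i, α (i + 2 * n) = α i) ∧ (∀ i, β (i + 2 * n) = β i) ∧
    (∀ i, γ (i + 2 * n) = γ i) ∧
    (∀ i, (2 : ℤ) ∣ i - σ → t i * a i = - α (i - 1) ∧ t i * b i = - β (i - 1) ∧
      t i * c i = α (i + 1) - γ (i - 1) ∧ t i * d i = β (i + 1) ∧ t i * e i = γ (i + 1)) ∧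
    (t σ ≠ 0 ∨ t (σ + 2) ≠ 0)

/-- the spaces `M k` -/
def M (n : ℕ) (a b c d e : ℤ → K) : ℕ → ℤ → Submodule K (ℤ → K)
  | 0, _ => ⊥
  | k + 1, π => Vc K n π ⊓ (Submodule.map (Dp a c e) (M n a b c d e k (π + 1))).comap (Dm b d)

lemma M_le (n : ℕ) (a b c d e : ℤ → K) (k : ℕ) (π : ℤ) : M n a b c d e k π ≤ Vc K n π := by
  cases k with
  | zero => exact bot_le
  | succ k => exact inf_le_left

lemma Vc_add_two (n : ℕ) (σ : ℤ) : Vc K n (σ + 2) = Vc K n σ := by
  ext f
  rw [mem_Vc, mem_Vc]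
  have : ∀ i : ℤ, (2 : ℤ) ∣ i - (σ + 2) ↔ (2 : ℤ) ∣ i - σ := by intro i; omega
  simp only [this]

lemma Dm_mem {n : ℕ} {b d : ℤ → K} (hb : ∀ i, b (i + 2 * n) = b i)
    (hd : ∀ i, d (i + 2 * n) = d i) {π : ℤ} {f : ℤ → K} (hf : f ∈ Vc K n π) :
    Dm b d f ∈ Vc K n (π + 1) := by
  obtain ⟨h1, h2⟩ := hf
  refine ⟨fun i => ?_, fun i hi => ?_⟩
  · rw [Dm_apply, Dm_apply, hb, hd, show i + 2 * (n : ℤ) - 1 = i - 1 + 2 * n by ring, h1,
      show i + 2 * (n : ℤ) + 1 = i + 1 + 2 * n by ring, h1]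
  · rw [Dm_apply, h2 (i - 1) (by omega), h2 (i + 1) (by omega)]
    ring

lemma Dp_mem {n : ℕ} {a c e : ℤ → K} (ha : ∀ i, a (i + 2 * n) = a i)
    (hc : ∀ i, c (i + 2 * n) = c i) (he : ∀ i, e (i + 2 * n) = e i) {π : ℤ} {f : ℤ → K}
    (hf : f ∈ Vc K n π) : Dp a c e f ∈ Vc K n π := by
  obtain ⟨h1, h2⟩ := hf
  refine ⟨fun i => ?_, fun i hi => ?_⟩
  · rw [Dp_apply, Dp_apply, ha, hc, he, show i + 2 * (n : ℤ) - 2 = i - 2 + 2 * n by ring, h1, h1,
      show i + 2 * (n : ℤ) + 2 = i + 2 + 2 * n by ring, h1]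
  · rw [Dp_apply, h2 (i - 2) (by omega), h2 (i + 2) (by omega), h2 i hi]
    ring

/-- the one linear relation satisfied by the joint image -/
lemma image_small {n : ℕ} [NeZero n] (hn : 2 ≤ n) {a b c d e : ℤ → K} {π : ℤ}
    (hI : Init n a b c d e (π + 1)) :
    ∃ W : Submodule K (ℤ → K), W ≤ Vc K n (π + 1) ∧ finrank K W + 1 ≤ n ∧
      ∀ f ∈ Vc K n π, ∀ f' ∈ Vc K n (π + 1), Dm b d f + Dp a c e f' ∈ Vc K n (π + 1) →
        Dm b d f + Dp a c e f' ∈ W := by
  obtain ⟨t, α, β, γ, hα, hβ, hγ, hrel, ht⟩ := hI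
  obtain ⟨σ, hσ⟩ : ∃ σ, σ = π + 1 := ⟨_, rfl⟩
  rw [← hσ] at hrel ht ⊢
  let U : (ℤ → K) →ₗ[K] K :=
    { toFun := fun f => ∑ j ∈ Finset.range n, t (σ + 2 * j) * f (σ + 2 * j)
      map_add' := fun f g => by
        rw [← Finset.sum_add_distrib]
        exact Finset.sum_congr rfl fun j _ => by simp; ring
      map_smul' := fun s f => by
        rw [RingHom.id_apply, smul_eq_mul, Finset.mul_sum]
        exact Finset.sum_congr rfl fun j _ => by simp; ring }
  have hU : ∀ f, U f = ∑ j ∈ Finset.range n, t (σ + 2 * j) * f (σ + 2 * j) := fun f => rfl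
  refine ⟨Vc K n σ ⊓ LinearMap.ker U, inf_le_left, ?_, ?_⟩
  · -- proper subspace
    have hlt : Vc K n σ ⊓ LinearMap.ker U < Vc K n σ := by
      refine lt_of_le_of_ne inf_le_left ?_
      intro heq
      -- a delta function
      have hδ : ∀ m : ℕ, m < n → t (σ + 2 * m) = 0 := by
        intro m hm
        let δ : ℤ → K := fun i => if (2 * (n : ℤ)) ∣ i - (σ + 2 * m) then 1 else 0
        have hδV : δ ∈ Vc K n σ := by
          refine ⟨fun i => ?_, fun i hi => ?_⟩
          · simp only [δ]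
            rw [show i + 2 * (n : ℤ) - (σ + 2 * m) = i - (σ + 2 * m) + 2 * n by ring]
            simp
          · simp only [δ]
            rw [if_neg]
            intro h
            apply hi
            have h2 : (2 : ℤ) ∣ i - (σ + 2 * m) := dvd_trans (dvd_mul_right 2 _) h
            omega
        rw [← heq] at hδV
        have h0 : U δ = 0 := hδV.2
        rw [hU, Finset.sum_eq_single m] at h0
        · simpa [δ] using h0
        · intro j hj hjm
          rw [Finset.mem_range] at hj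
          have : δ (σ + 2 * j) = 0 := by
            simp only [δ]
            rw [if_neg]
            rw [show σ + 2 * (j : ℤ) - (σ + 2 * m) = 2 * ((j : ℤ) - m) by ring]
            intro h
            have h3 : (n : ℤ) ∣ (j : ℤ) - m := (mul_dvd_mul_iff_left (by norm_num)).mp h
            obtain ⟨q, hq⟩ := h3
            have hq0 : q = 0 := by
              by_contra hq0
              rcases lt_or_gt_of_ne hq0 with h4 | h4
              · nlinarith
              · nlinarith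
            rw [hq0, mul_zero] at hq
            omega
          rw [this, mul_zero]
        · intro h; exact absurd (Finset.mem_range.mpr hm) h
      rcases ht with h | h
      · have := hδ 0 (by omega)
        simp at this
        exact h this
      · have := hδ 1 (by omega)
        simp at this
        exact h this
    have := Submodule.finrank_lt_finrank_of_lt hlt
    rw [finrank_Vc] at this
    omega
  · intro f hf f' hf' hmem
    refine ⟨hmem, ?_⟩
    change U (Dm b d f + Dp a c e f') = 0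
    rw [hU]
    let H : ℤ → K := fun m => β m * f m + α m * f' (m - 1) + γ m * f' (m + 1)
    have hH : ∀ j : ℕ, t (σ + 2 * j) * (Dm b d f + Dp a c e f') (σ + 2 * j) =
        H (σ + 2 * ((j + 1 : ℕ) : ℤ) - 1) - H (σ + 2 * (j : ℤ) - 1) := by
      intro j
      obtain ⟨r1, r2, r3, r4, r5⟩ := hrel (σ + 2 * j) (by simp)
      rw [Pi.add_apply, Dm_apply, Dp_apply]
      simp only [H]
      rw [show σ + 2 * ((j + 1 : ℕ) : ℤ) - 1 = σ + 2 * j + 1 by push_cast; ring,
        show σ + 2 * (j : ℤ) + 1 - 1 = σ + 2 * j by ring,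
        show σ + 2 * (j : ℤ) + 1 + 1 = σ + 2 * j + 2 by ring,
        show σ + 2 * (j : ℤ) - 1 + 1 = σ + 2 * j by ring,
        show σ + 2 * (j : ℤ) - 1 - 1 = σ + 2 * j - 2 by ring]
      linear_combination f' (σ + 2 * j - 2) * r1 + f (σ + 2 * j - 1) * r2 + f' (σ + 2 * j) * r3
        + f (σ + 2 * j + 1) * r4 + f' (σ + 2 * j + 2) * r5
    rw [Finset.sum_congr rfl fun j _ => hH j,
      Finset.sum_range_sub (fun j : ℕ => H (σ + 2 * (j : ℤ) - 1))]
    simp only [H]
    rw [show σ + 2 * (n : ℤ) - 1 = σ + 2 * ((0 : ℕ) : ℤ) - 1 + 2 * n by push_cast; ring, hβ, hα, hγ,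
      hf.1, show σ + 2 * ((0 : ℕ) : ℤ) - 1 + 2 * (n : ℤ) - 1 =
        σ + 2 * ((0 : ℕ) : ℤ) - 1 - 1 + 2 * n by ring,
      show σ + 2 * ((0 : ℕ) : ℤ) - 1 + 2 * (n : ℤ) + 1 =
        σ + 2 * ((0 : ℕ) : ℤ) - 1 + 1 + 2 * n by ring, hf'.1, hf'.1]
    ring

/-- one step of the dimension count -/
lemma M_succ_dim {n : ℕ} [NeZero n] (hn : 2 ≤ n) {a b c d e : ℤ → K}
    (ha : ∀ i, a (i + 2 * n) = a i) (hb : ∀ i, b (i + 2 * n) = b i)
    (hc : ∀ i, c (i + 2 * n) = c i) (hd : ∀ i, d (i + 2 * n) = d i)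
    (he : ∀ i, e (i + 2 * n) = e i) (k : ℕ) (π : ℤ) (hI : Init n a b c d e (π + 1))
    (hinj : ∀ f ∈ M n a b c d e k (π + 1), Dp a c e f = 0 → f = 0) :
    finrank K (M n a b c d e k (π + 1)) + 1 ≤ finrank K (M n a b c d e (k + 1) π) := by
  obtain ⟨W, hW, hWd, hWmem⟩ := image_small hn hI
  obtain ⟨M', hM'⟩ : ∃ M', M' = M n a b c d e k (π + 1) := ⟨_, rfl⟩
  have hM'le : M' ≤ Vc K n (π + 1) := hM' ▸ M_le n a b c d e k (π + 1)
  have : FiniteDimensional K M' := Submodule.finiteDimensional_of_le hM'le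
  have : FiniteDimensional K W := Submodule.finiteDimensional_of_le hW
  let T : (Vc K n π × M') →ₗ[K] (ℤ → K) :=
    ((Dm b d) ∘ₗ (Vc K n π).subtype).coprod ((Dp a c e) ∘ₗ M'.subtype)
  have hT : ∀ x, T x = Dm b d x.1.1 + Dp a c e x.2.1 := fun x => rfl
  have hrange : LinearMap.range T ≤ W := by
    rintro _ ⟨x, rfl⟩
    rw [hT]
    refine hWmem _ x.1.2 _ (hM'le x.2.2) ?_
    exact Submodule.add_mem _ (Dm_mem hb hd x.1.2) (Dp_mem ha hc he (hM'le x.2.2))
  have h1 : finrank K (LinearMap.range T) ≤ finrank K W := Submodule.finrank_mono hrange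
  have h2 := LinearMap.finrank_range_add_finrank_ker T
  rw [Module.finrank_prod, finrank_Vc] at h2
  -- the projection of the kernel
  let p : LinearMap.ker T →ₗ[K] (ℤ → K) :=
    (Vc K n π).subtype ∘ₗ (LinearMap.fst K _ _) ∘ₗ (LinearMap.ker T).subtype
  have hp : ∀ x, p x = x.1.1.1 := fun x => rfl
  have hpmem : ∀ x, p x ∈ M n a b c d e (k + 1) π := by
    intro x
    rw [hp]
    refine ⟨x.1.1.2, ?_⟩
    rw [← hM']
    refine Submodule.mem_comap.mpr ⟨- x.1.2.1, M'.neg_mem x.1.2.2, ?_⟩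
    have h3 := x.2
    rw [LinearMap.mem_ker, hT] at h3
    rw [map_neg, neg_eq_iff_add_eq_zero, add_comm]
    exact h3
  have hpinj : Function.Injective p := by
    rw [injective_iff_map_eq_zero]
    intro x hx
    rw [hp] at hx
    have h3 := x.2
    rw [LinearMap.mem_ker, hT, hx, map_zero, zero_add] at h3
    have h4 : x.1.2.1 = 0 := hinj _ (by rw [← hM']; exact x.1.2.2) h3
    ext i
    · rw [hx]; rfl
    · rw [h4]; rfl
  have : FiniteDimensional K (M n a b c d e (k + 1) π) :=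
    Submodule.finiteDimensional_of_le (M_le n a b c d e (k + 1) π)
  have hinj' : Function.Injective (p.codRestrict _ hpmem) := by
    intro x y hxy
    apply hpinj
    have := congrArg Subtype.val hxy
    exact this
  have h5 : finrank K (LinearMap.ker T) ≤ finrank K (M n a b c d e (k + 1) π) :=
    LinearMap.finrank_le_finrank_of_injective hinj'
  rw [← hM']
  omega

section chain

variable (A : ℕ → ℤ → Fin 4 → K) (a b c d e : ℕ → ℤ → K)

/-- the product of the odd parts -/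
def Wop (b d : ℕ → ℤ → K) : ℕ → (ℤ → K) → (ℤ → K)
  | 0, f => f
  | k + 1, f => Dm (b k) (d k) (Wop b d k f)

/-- the product of the odd parts, without the first factor -/
def Xop (b d : ℕ → ℤ → K) : ℕ → (ℤ → K) → (ℤ → K)
  | 0, f => f
  | k + 1, f => Dm (b (k + 1)) (d (k + 1)) (Xop b d k f)

omit A a c e in
lemma Wop_succ (k : ℕ) (f : ℤ → K) : Wop b d (k + 1) f = Xop b d k (Dm (b 0) (d 0) f) := by
  induction k with
  | zero => rfl
  | succ k ih => rw [Wop, ih]; rfl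

omit A a c e in
lemma Wop_zero (k : ℕ) : Wop b d k 0 = 0 := by
  induction k with
  | zero => rfl
  | succ k ih => rw [Wop, ih, map_zero]

omit A a c e in
lemma Xop_zero (k : ℕ) : Xop b d k 0 = 0 := by
  induction k with
  | zero => rfl
  | succ k ih => rw [Xop, ih, map_zero]

variable {A a b c d e} {N : ℕ}
  (hs : ∀ j, j < N → Step (A j) (A (j + 1)) (a j) (b j) (c j) (d j) (e j))

include hs

lemma Xop_Dp (k : ℕ) (hk : k < N) (f : ℤ → K) :
    Xop b d k (Dp (a 0) (c 0) (e 0) f) = Dp (a k) (c k) (e k) (Wop b d k f) := by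
  induction k with
  | zero => rfl
  | succ k ih =>
    rw [Xop, ih (by omega), ← comm (hs k (by omega)) (hs (k + 1) hk)]
    rfl

lemma M_Wop (n : ℕ) (k : ℕ) (hk : k ≤ N) (π : ℤ) (f : ℤ → K)
    (hf : f ∈ M n (a 0) (b 0) (c 0) (d 0) (e 0) k π) : Wop b d k f = 0 := by
  induction k generalizing π f with
  | zero => exact hf
  | succ k ih =>
    obtain ⟨-, f', hf', hff'⟩ := hf
    rw [Wop_succ, ← hff', Xop_Dp hs k (by omega), ih (by omega) _ f' hf', map_zero]

lemma M_inj (n : ℕ) (k : ℕ) (hk : k + 1 ≤ N) (π : ℤ) (f : ℤ → K)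
    (hf : f ∈ M n (a 0) (b 0) (c 0) (d 0) (e 0) k π)
    (h0 : Dp (a 0) (c 0) (e 0) f = 0) : f = 0 := by
  have key : ∀ m, m ≤ k → Wop b d m f = 0 → f = 0 := by
    intro m
    induction m with
    | zero => intro _ h; exact h
    | succ m ih =>
      intro hm h
      refine ih (by omega) ?_
      refine no_common_kernel (hs m (by omega)) (hs (m + 1) (by omega)) _ h ?_
      rw [← Xop_Dp hs m (by omega), h0, Xop_zero]
  exact key k le_rfl (M_Wop hs n k (by omega) π f hf)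

lemma M_dim {n : ℕ} [NeZero n] (hn : 2 ≤ n)
    (ha : ∀ i, a 0 (i + 2 * n) = a 0 i) (hb : ∀ i, b 0 (i + 2 * n) = b 0 i)
    (hc : ∀ i, c 0 (i + 2 * n) = c 0 i) (hd : ∀ i, d 0 (i + 2 * n) = d 0 i)
    (he : ∀ i, e 0 (i + 2 * n) = e 0 i)
    (hI : ∀ σ, Init n (a 0) (b 0) (c 0) (d 0) (e 0) σ) (k : ℕ) (hk : k ≤ N) (π : ℤ) :
    k ≤ finrank K (M n (a 0) (b 0) (c 0) (d 0) (e 0) k π) := by
  induction k generalizing π with
  | zero => exact Nat.zero_le _
  | succ k ih =>
    refine le_trans (Nat.add_le_add_right (ih (by omega) (π + 1)) 1) ?_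
    exact M_succ_dim hn ha hb hc hd he k π (hI _) (fun f hf h0 => M_inj hs n k hk _ f hf h0)

omit hs in
lemma Wop_par (k : ℕ) (π : ℤ) (f g : ℤ → K) (h : ∀ j, (2 : ℤ) ∣ j - π → f j = g j) (i : ℤ)
    (hi : (2 : ℤ) ∣ i - (π + k)) : Wop b d k f i = Wop b d k g i := by
  induction k generalizing i with
  | zero => exact h i (by simpa using hi)
  | succ k ih =>
    rw [Wop, Wop, Dm_apply, Dm_apply]
    push_cast at hi
    rw [ih (i - 1) (by omega), ih (i + 1) (by omega)]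

lemma Wop_A (k : ℕ) (hk : k ≤ N) (φ : (Fin 4 → K) →ₗ[K] K) :
    Wop b d k (fun i => φ (A 0 i)) = fun i => φ (A k i) := by
  induction k with
  | zero => rfl
  | succ k ih =>
    rw [Wop, ih (by omega)]
    ext i
    rw [Dm_apply, ← (hs k (by omega)).hB i]
    simp

/-- the coplanarity statement on lifts -/
theorem plane {n : ℕ} [NeZero n] (hn : 4 ≤ n) (hN : N + 3 = n)
    (hA : ∀ i, A 0 (i + 2 * n) = A 0 i)
    (ha : ∀ i, a 0 (i + 2 * n) = a 0 i) (hb : ∀ i, b 0 (i + 2 * n) = b 0 i)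
    (hc : ∀ i, c 0 (i + 2 * n) = c 0 i) (hd : ∀ i, d 0 (i + 2 * n) = d 0 i)
    (he : ∀ i, e 0 (i + 2 * n) = e 0 i)
    (hI : ∀ σ, Init n (a 0) (b 0) (c 0) (d 0) (e 0) σ) (ρ : ℤ) :
    ∃ φ : (Fin 4 → K) →ₗ[K] K, φ ≠ 0 ∧ ∀ i, (2 : ℤ) ∣ i - ρ → φ (A N i) = 0 := by
  classical
  obtain ⟨π, hπ⟩ : ∃ π : ℤ, π = ρ - N := ⟨_, rfl⟩
  have hdim := M_dim hs (by omega) ha hb hc hd he hI N le_rfl π
  obtain ⟨M', hM'⟩ : ∃ M', M' = M n (a 0) (b 0) (c 0) (d 0) (e 0) N π := ⟨_, rfl⟩
  rw [← hM'] at hdim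
  have hM'le : M' ≤ Vc K n π := hM' ▸ M_le n _ _ _ _ _ N π
  have : FiniteDimensional K M' := Submodule.finiteDimensional_of_le hM'le
  let R : ((Fin 4 → K) →ₗ[K] K) →ₗ[K] Vc K n π :=
    { toFun := fun φ => ⟨fun i => if (2 : ℤ) ∣ i - π then φ (A 0 i) else 0, by
        refine ⟨fun i => ?_, fun i hi => if_neg hi⟩
        have h1 : (2 : ℤ) ∣ i + 2 * n - π ↔ (2 : ℤ) ∣ i - π := by
          rw [show i + 2 * (n : ℤ) - π = i - π + 2 * n by ring]
          exact Int.dvd_add_left (dvd_mul_right _ _)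
        simp only [h1, hA]⟩
      map_add' := fun φ ψ => by
        ext i
        simp only [LinearMap.add_apply, Submodule.coe_add, Pi.add_apply]
        split_ifs <;> simp
      map_smul' := fun s φ => by
        ext i
        simp only [LinearMap.smul_apply, RingHom.id_apply, Submodule.coe_smul, Pi.smul_apply,
          smul_eq_mul]
        split_ifs <;> simp }
  let Φ : (((Fin 4 → K) →ₗ[K] K) × M') →ₗ[K] Vc K n π :=
    R.coprod (-(Submodule.inclusion hM'le))
  have hΦ : ∀ x, Φ x = R x.1 - Submodule.inclusion hM'le x.2 := fun x => by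
    simp only [Φ, LinearMap.coprod_apply, LinearMap.neg_apply, sub_eq_add_neg]
  have hker : LinearMap.ker Φ ≠ ⊥ := by
    apply LinearMap.ker_ne_bot_of_finrank_lt
    rw [finrank_Vc, Module.finrank_prod, Module.finrank_linearMap]
    simp
    omega
  obtain ⟨x, hx, hx0⟩ := Submodule.exists_mem_ne_zero_of_ne_bot hker
  rw [LinearMap.mem_ker, hΦ, sub_eq_zero] at hx
  have hxv : ∀ i, (if (2 : ℤ) ∣ i - π then x.1 (A 0 i) else 0) = x.2.1 i := by
    intro i
    have := congrArg (fun v => (v : Vc K n π).1 i) hx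
    exact this
  refine ⟨x.1, ?_, ?_⟩
  · intro h0
    apply hx0
    have h2 : x.2 = 0 := by
      ext i
      rw [← hxv i, h0]
      simp
    exact Prod.ext h0 h2
  · intro i hi
    have h3 := M_Wop hs n N le_rfl π x.2.1 (by rw [← hM']; exact x.2.2)
    have h4 : Wop b d N x.2.1 i = Wop b d N (fun i => x.1 (A 0 i)) i := by
      apply Wop_par N π _ _ _ i
      · rw [hπ, sub_add_cancel]; exact hi
      · intro j hj
        rw [← hxv j, if_pos hj]
    rw [h3, Wop_A hs N le_rfl] at h4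
    exact h4.symm

end chain

end Pool.Agent.T6.H75.DV
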